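import Mathlib
import Pool.Agent.Lib.MP_21f624_an.Arc

/-!
# Polynomial density on Jordan arcs with null coordinate projections

For every `n ≥ 3` there is a Jordan arc `γ` in `ℂ ^ n` all of whose coordinate projections have
area zero, with `P(γ) ≠ C(γ)`.  Moreover the origin is not on `γ`, but it lies in the polynomially
convex hull of `γ`.
-/

set_option autoImplicit false

namespace Pool.Agent.Results.MP_21f624_an.NullProjectionArc

open Set Metric MeasureTheory Filter Topology
open Pool.Agent.MP_21f624_an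

/-- A Jordan arc in `ℂ ^ n`: the image of `[0, 1]` under a continuous injective map. -/
def JordanArc {n : ℕ} (γ : Set (Fin n → ℂ)) : Prop :=
  ∃ h : unitInterval → (Fin n → ℂ), Continuous h ∧ Function.Injective h ∧ range h = γ

/-- The `j`-th coordinate projection of `γ`. -/
def proj {n : ℕ} (j : Fin n) (γ : Set (Fin n → ℂ)) : Set ℂ := (fun z : Fin n → ℂ => z j) '' γ

/-- `P(γ)`: the closure in `C(γ)` of the restrictions to `γ` of the polynomials in
`z_1, …, z_n`. -/
def P {n : ℕ} (γ : Set (Fin n → ℂ)) : Set C(γ, ℂ) :=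
  closure {F | ∃ p : MvPolynomial (Fin n) ℂ,
    ∀ z : γ, F z = MvPolynomial.eval (z : Fin n → ℂ) p}

/-- The point `(a, b, c, 0, …, 0)` of `ℂ ^ n`. -/
def pnt (n : ℕ) (a b c : ℂ) : Fin n → ℂ := fun j =>
  if (j : ℕ) = 0 then a else if (j : ℕ) = 1 then b else if (j : ℕ) = 2 then c else 0

theorem continuous_pnt {X : Type} [TopologicalSpace X] (n : ℕ) {a b c : X → ℂ}
    (ha : Continuous a) (hb : Continuous b) (hc : Continuous c) :
    Continuous fun x => pnt n (a x) (b x) (c x) := by
  apply continuous_pi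
  intro j
  unfold pnt
  by_cases h0 : (j : ℕ) = 0
  · simpa [h0] using ha
  · by_cases h1 : (j : ℕ) = 1
    · simpa [h1] using hb
    · by_cases h2 : (j : ℕ) = 2
      · simpa [h2] using hc
      · simpa [h0, h1, h2] using continuous_const

theorem exists_arc3 (n : ℕ) (hn : 3 ≤ n) : ∃ g : ℝ → (Fin n → ℂ), Continuous g ∧
    InjOn g (Icc (0 : ℝ) 1) ∧
    (∀ j : Fin n, (volume : Measure ℂ) (proj j (g '' Icc (0 : ℝ) 1)) = 0) ∧
    (0 : Fin n → ℂ) ∉ g '' Icc (0 : ℝ) 1 ∧
    ∀ x ∈ K, pnt n x.1 x.2 0 ∈ g '' Icc (0 : ℝ) 1 := by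
  have := totallyDisconnected_K
  have hcK : CompactSpace K := isCompact_iff_compactSpace.1 isCompact_K
  obtain ⟨θ, hθc, hθi, hθr⟩ := exists_coding K
  have hemb : IsClosedEmbedding θ := hθc.isClosedEmbedding hθi
  obtain ⟨h1, hh1⟩ := ContinuousMap.exists_extension' hemb
    (⟨fun x : K => (x : ℂ × ℂ).1, by fun_prop⟩ : C(K, ℂ))
  obtain ⟨h2, hh2⟩ := ContinuousMap.exists_extension' hemb
    (⟨fun x : K => (x : ℂ × ℂ).2, by fun_prop⟩ : C(K, ℂ))
  have hx1 : ∀ x : K, h1 (θ x) = (x : ℂ × ℂ).1 := fun x => congrFun hh1 x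
  have hx2 : ∀ x : K, h2 (θ x) = (x : ℂ × ℂ).2 := fun x => congrFun hh2 x
  obtain ⟨δ, hsupp, hsm, -⟩ := (hemb.isClosed_range.isOpen_compl).exists_contDiff_support_eq
    (n := 1)
  have hδd : Differentiable ℝ δ := hsm.differentiable (by norm_num)
  have hδc : Continuous δ := hδd.continuous
  have hδ0 : ∀ t, δ t = 0 ↔ t ∈ range θ := by
    intro t
    have : t ∈ Function.support δ ↔ t ∈ (range θ)ᶜ := by rw [hsupp]
    rw [Function.mem_support, mem_compl_iff] at this
    exact not_iff_not.1 this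
  let φ : ℝ → ℂ := fun t => (δ t : ℂ) * (1 + (t : ℂ) * Complex.I)
  have hφd : Differentiable ℝ φ := by
    have e1 : Differentiable ℝ fun t : ℝ => (δ t : ℂ) :=
      fun t => Complex.ofRealCLM.differentiableAt.comp t (hδd t)
    have e2 : Differentiable ℝ fun t : ℝ => (t : ℂ) :=
      fun t => Complex.ofRealCLM.differentiableAt
    exact e1.mul ((differentiable_const 1).add (e2.mul (differentiable_const _)))
  have hφre : ∀ t, (φ t).re = δ t := by
    intro t
    simp [φ]
  have hφim : ∀ t, (φ t).im = δ t * t := by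
    intro t
    simp [φ]
  let g : ℝ → (Fin n → ℂ) := fun t => pnt n (avg δ h1 t) (avg δ h2 t) (φ t)
  have hg : Continuous g :=
    continuous_pnt n (continuous_avg hδc h1.continuous) (continuous_avg hδc h2.continuous)
      hφd.continuous
  have hgK : ∀ x : K, g (θ x) = pnt n (x : ℂ × ℂ).1 (x : ℂ × ℂ).2 0 := by
    intro x
    have h0 : δ (θ x) = 0 := (hδ0 _).2 (mem_range_self x)
    have h3 : φ (θ x) = 0 := by simp [φ, h0]
    simp only [g]
    rw [avg_of_zero h0, avg_of_zero h0, hx1, hx2, h3]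
  refine ⟨g, hg, ?_, ?_, ?_, ?_⟩
  · intro s _ t _ hst
    have e1 : φ s = φ t := by
      have := congrFun hst ⟨2, by omega⟩
      simpa [g, pnt] using this
    have e2 : δ s = δ t := by rw [← hφre, ← hφre, e1]
    have e3 : δ s * s = δ t * t := by rw [← hφim, ← hφim, e1]
    by_cases h0 : δ s = 0
    · obtain ⟨x, rfl⟩ := (hδ0 s).1 h0
      obtain ⟨y, rfl⟩ := (hδ0 t).1 (e2 ▸ h0)
      rw [hgK, hgK] at hst
      have f0 := congrFun hst ⟨0, by omega⟩
      have f1 := congrFun hst ⟨1, by omega⟩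
      simp only [pnt] at f0 f1
      have : (x : ℂ × ℂ) = y := Prod.ext (by simpa using f0) (by simpa using f1)
      rw [Subtype.ext this]
    · rw [← e2] at e3
      exact mul_left_cancel₀ h0 e3
  · have hav : ∀ (h : ℝ → ℂ) (p : ℂ × ℂ → ℂ), Continuous h → (∀ x : K, h (θ x) = p x) →
        (volume : Measure ℂ) (p '' K) = 0 → (volume : Measure ℂ) (range (avg δ h)) = 0 := by
      intro h p hh hp hv
      refine measure_mono_null ?_ (measure_union_null hv (avg_null hδd hh))
      rintro _ ⟨t, rfl⟩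
      by_cases h0 : δ t = 0
      · left
        obtain ⟨x, rfl⟩ := (hδ0 t).1 h0
        rw [avg_of_zero h0]
        exact ⟨x, x.2, (hp x).symm⟩
      · right
        exact ⟨t, h0, rfl⟩
    intro j
    unfold proj
    rw [image_image]
    by_cases c0 : (j : ℕ) = 0
    · have : (fun t => g t j) = avg δ h1 := by
        funext t
        simp [g, pnt, c0]
      rw [this]
      exact measure_mono_null (image_subset_range _ _)
        (hav h1 Prod.fst h1.continuous hx1 vol_fst_K)
    · by_cases c1 : (j : ℕ) = 1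
      · have : (fun t => g t j) = avg δ h2 := by
          funext t
          simp [g, pnt, c1]
        rw [this]
        exact measure_mono_null (image_subset_range _ _)
          (hav h2 Prod.snd h2.continuous hx2 vol_snd_K)
      · by_cases c2 : (j : ℕ) = 2
        · have : (fun t => g t j) = φ := by
            funext t
            simp [g, pnt, c2]
          rw [this]
          exact null_image fun t _ => hφd t
        · have : (fun t => g t j) = fun _ => (0 : ℂ) := by
            funext t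
            simp [g, pnt, c0, c1, c2]
          rw [this]
          exact null_image fun t _ => differentiableAt_const 0
  · rintro ⟨t, -, ht⟩
    have e1 : φ t = 0 := by
      have := congrFun ht ⟨2, by omega⟩
      simpa [g, pnt] using this
    have h0 : δ t = 0 := by rw [← hφre, e1, Complex.zero_re]
    obtain ⟨x, rfl⟩ := (hδ0 t).1 h0
    rw [hgK] at ht
    have f0 := congrFun ht ⟨0, by omega⟩
    have f1 : (x : ℂ × ℂ).1 = 0 := by simpa [pnt] using f0
    have := (norm_fst_K x.2).1
    rw [f1, norm_zero] at this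
    linarith
  · intro x hx
    exact ⟨θ ⟨x, hx⟩, hθr _, hgK ⟨x, hx⟩⟩

theorem differentiable_eval (n : ℕ) (p : MvPolynomial (Fin n) ℂ) :
    Differentiable ℂ (fun x : ℂ × ℂ => MvPolynomial.eval (pnt n x.1 x.2 0) p) := by
  induction p using MvPolynomial.induction_on with
  | C a => simp
  | add p q hp hq =>
    simp only [map_add]
    exact hp.add hq
  | mul_X p j hp =>
    have hj : Differentiable ℂ (fun x : ℂ × ℂ => pnt n x.1 x.2 0 j) := by
      unfold pnt
      by_cases h0 : (j : ℕ) = 0
      · simp [h0]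
      · by_cases h1 : (j : ℕ) = 1
        · simp [h1]
        · simp [h0, h1]
    simp only [map_mul, MvPolynomial.eval_X]
    exact hp.mul hj

theorem pnt_zero (n : ℕ) : pnt n 0 0 0 = 0 := by
  funext j
  simp [pnt]

/-- For every `n ≥ 3` there is a Jordan arc `γ` in `ℂ ^ n` whose coordinate projections all have
area zero, such that `P(γ) ≠ C(γ)`; moreover the origin is not on `γ` and lies in the polynomially
convex hull of `γ`. -/
theorem result (n : ℕ) (hn : 3 ≤ n) : ∃ γ : Set (Fin n → ℂ), JordanArc γ ∧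
    (∀ j : Fin n, (volume : Measure ℂ) (proj j γ) = 0) ∧
    P γ ≠ univ ∧
    (0 : Fin n → ℂ) ∉ γ ∧
    ∀ p : MvPolynomial (Fin n) ℂ, ∃ z ∈ γ, ‖MvPolynomial.eval 0 p‖ ≤ ‖MvPolynomial.eval z p‖ := by
  obtain ⟨g, hgc, hgi, hvol, h0, hgK⟩ := exists_arc3 n hn
  set γ : Set (Fin n → ℂ) := g '' Icc (0 : ℝ) 1 with hγ
  have hcomp : IsCompact γ := isCompact_Icc.image hgc
  have hull : ∀ p : MvPolynomial (Fin n) ℂ, ∀ M : ℝ,
      (∀ z ∈ γ, ‖MvPolynomial.eval z p‖ ≤ M) → ‖MvPolynomial.eval 0 p‖ ≤ M := by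
    intro p M hM
    have := hull_K (fun x : ℂ × ℂ => MvPolynomial.eval (pnt n x.1 x.2 0) p)
      (differentiable_eval n p) M fun x hx => hM _ (hgK x hx)
    simpa only [pnt_zero] using this
  have hne : γ.Nonempty := ⟨g 0, mem_image_of_mem g (left_mem_Icc.2 zero_le_one)⟩
  refine ⟨γ, ⟨fun t => g t, hgc.comp continuous_subtype_val, ?_, ?_⟩, hvol, ?_, h0, ?_⟩
  · intro s t hst
    exact Subtype.ext (hgi s.2 t.2 hst)
  · rw [hγ, image_eq_range]
  · intro hP
    have : CompactSpace γ := isCompact_iff_compactSpace.1 hcomp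
    let j0 : Fin n := ⟨0, by omega⟩
    let f : (Fin n → ℂ) → ℂ := fun z =>
      (starRingEnd ℂ) (z j0) / ((max (‖z j0‖ ^ 2) (1 / 4) : ℝ) : ℂ)
    have hf : Continuous f := by
      have h0 : Continuous fun z : Fin n → ℂ => z j0 := continuous_apply j0
      refine (Complex.continuous_conj.comp h0).div ?_ ?_
      · exact Complex.continuous_ofReal.comp ((h0.norm.pow 2).max continuous_const)
      · intro z h
        have h1 : (max (‖z j0‖ ^ 2) (1 / 4) : ℝ) = 0 := by exact_mod_cast h
        have h2 : (1 / 4 : ℝ) ≤ max (‖z j0‖ ^ 2) (1 / 4) := le_max_right _ _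
        linarith
    let F : C(γ, ℂ) := ⟨fun z => f z, hf.comp continuous_subtype_val⟩
    have hF : F ∈ P γ := hP ▸ mem_univ F
    obtain ⟨G, ⟨p, hp⟩, hFG⟩ := Metric.mem_closure_iff.1 hF (1 / 3) (by norm_num)
    have hfp : ∀ z ∈ γ, ‖f z - MvPolynomial.eval z p‖ < 1 / 3 := by
      intro z hz
      have h1 := (ContinuousMap.dist_lt_iff (by norm_num)).1 hFG ⟨z, hz⟩
      rw [hp, dist_eq_norm] at h1
      exact h1
    -- the polynomial `1 - z_0 p` is small on `K` but is `1` at the origin
    let q : ℂ × ℂ → ℂ := fun x => 1 - x.1 * MvPolynomial.eval (pnt n x.1 x.2 0) p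
    have hq : Differentiable ℂ q :=
      (differentiable_const 1).sub (differentiable_fst.mul (differentiable_eval n p))
    have hqK : ∀ x ∈ K, ‖q x‖ ≤ 1 / 2 := by
      intro x hx
      have h1 := hfp _ (hgK x hx)
      obtain ⟨hn1, hn2⟩ := norm_fst_K hx
      have hne : x.1 ≠ 0 := by
        intro h
        rw [h, norm_zero] at hn1
        linarith
      have hj : pnt n x.1 x.2 0 j0 = x.1 := by simp [pnt, j0]
      have hfx : x.1 * f (pnt n x.1 x.2 0) = 1 := by
        have h2 : (1 / 4 : ℝ) ≤ ‖x.1‖ ^ 2 := by nlinarith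
        have h3 : ((max (‖x.1‖ ^ 2) (1 / 4) : ℝ) : ℂ) = x.1 * (starRingEnd ℂ) x.1 := by
          rw [max_eq_left h2, Complex.mul_conj, Complex.normSq_eq_norm_sq]
        simp only [f, hj]
        rw [h3]
        have h4 : (starRingEnd ℂ) x.1 ≠ 0 := by
          intro h
          exact hne ((map_eq_zero _).1 h)
        field_simp
      have hqx : q x = x.1 * (f (pnt n x.1 x.2 0) -
          MvPolynomial.eval (pnt n x.1 x.2 0) p) := by
        simp only [q]
        rw [mul_sub, hfx]
      rw [hqx, norm_mul]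
      calc ‖x.1‖ * ‖f (pnt n x.1 x.2 0) - MvPolynomial.eval (pnt n x.1 x.2 0) p‖
          ≤ (3 / 2) * (1 / 3) := mul_le_mul hn2 h1.le (norm_nonneg _) (by norm_num)
        _ = 1 / 2 := by norm_num
    have h := hull_K q hq (1 / 2) hqK
    simp only [q, zero_mul, sub_zero, norm_one] at h
    norm_num at h
  · intro p
    have hcont : ContinuousOn (fun z : Fin n → ℂ => ‖MvPolynomial.eval z p‖) γ :=
      (MvPolynomial.continuous_eval p).norm.continuousOn
    obtain ⟨z, hz, hmax⟩ := hcomp.exists_isMaxOn hne hcont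
    exact ⟨z, hz, hull p _ fun w hw => hmax hw⟩

end Pool.Agent.Results.MP_21f624_an.NullProjectionArc
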